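import Pool.Agent.R267.CondFinal
import Pool.Agent.R267.CondA3
import Pool.Agent.R267.Renorm
import Pool.Agent.R267.SwapPerm

set_option autoImplicit false

open Filter Topology
open scoped ENNReal

/-!
Property (A) does not imply unconditionality, not even in renormings of a Hilbert space: a Banach
space (real or complex) isomorphic to `ℓ₂` has a basis with Property (A) which is not
unconditional.
-/

namespace Pool.Agent.Results.MP_e9a5f2_an.HilbertRenorming

section defs

variable {𝕜 : Type} [RCLike 𝕜] {E : Type} [NormedAddCommGroup E] [NormedSpace 𝕜 E]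

/-- `x` is a semi-normalized Markushevich basis with biorthogonal functionals `xs` -/
structure IsBasis (x : ℕ → E) (xs : ℕ → StrongDual 𝕜 E) : Prop where
  /-- the span of the `x n` is dense -/
  dense : ∀ f : E, f ∈ closure ((Submodule.span 𝕜 (Set.range x) : Submodule 𝕜 E) : Set E)
  /-- biorthogonality -/
  biorth : ∀ m n, xs m (x n) = if m = n then 1 else 0
  /-- the functionals separate points -/
  total : ∀ f : E, (∀ n, xs n f = 0) → f = 0
  /-- uniform bound -/
  bdd : ∃ C : ℝ, ∀ n, ‖x n‖ ≤ C ∧ ‖xs n‖ ≤ C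

/-- Property (A), symmetry for largest coefficients -/
def PropertyA (x : ℕ → E) (xs : ℕ → StrongDual 𝕜 E) : Prop :=
  ∀ (f : E) (A B : Finset ℕ) (ε η : ℕ → 𝕜), (∀ n, ‖xs n f‖ ≤ 1) → A.card = B.card →
    Disjoint A B → (∀ n ∈ A, xs n f = 0) → (∀ n ∈ B, xs n f = 0) →
    (∀ n ∈ A, ‖ε n‖ = 1) → (∀ n ∈ B, ‖η n‖ = 1) →
    ‖f + ∑ n ∈ A, ε n • x n‖ = ‖f + ∑ n ∈ B, η n • x n‖

/-- `∑ xs n f • x n` converges unconditionally to `f`, for every `f` -/
def Unconditional (x : ℕ → E) (xs : ℕ → StrongDual 𝕜 E) : Prop :=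
  ∀ f : E, HasSum (fun n => xs n f • x n) f

end defs

theorem result (𝕜 : Type) [RCLike 𝕜] :
    ∃ (E : Type) (_ : NormedAddCommGroup E) (_ : NormedSpace 𝕜 E) (_ : CompleteSpace E),
      Nonempty (E ≃L[𝕜] lp (fun _ : ℕ => 𝕜) 2) ∧
      ∃ (x : ℕ → E) (xs : ℕ → StrongDual 𝕜 E),
        IsBasis x xs ∧ PropertyA x xs ∧ ¬ Unconditional x xs := by
  classical
  obtain ⟨N, x, xs, hN, hbi, hexp, huniq, ⟨y0, hy0⟩, hA, hbd, hxn⟩ :=
    Pool.Agent.R267.CF.exists_l2 𝕜
  obtain ⟨e, he⟩ := Pool.Agent.R267.RN.exists_iso N hN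
  have hC3 : 0 ≤ (Pool.Agent.R267.CA.DD 𝕜).C3 := (Pool.Agent.R267.CA.DD 𝕜).C3_nonneg
  set ys : ℕ → StrongDual 𝕜 (Pool.Agent.R267.RN.Ren N hN) := fun n =>
    ((xs n).mkContinuous (Pool.Agent.R267.CA.DD 𝕜).C3 (hbd n)).comp
      (e : Pool.Agent.R267.RN.Ren N hN →L[𝕜] lp (fun _ : ℕ => 𝕜) 2) with hys
  have hysa : ∀ n y, ys n y = xs n (e y) := fun n y => rfl
  have hbi' : ∀ m n, ys m (e.symm (x n)) = if m = n then 1 else 0 := by
    intro m n
    rw [hysa, e.apply_symm_apply]
    exact hbi m n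
  have hexp' : ∀ y, Tendsto (fun m => ∑ n ∈ Finset.range m, ys n y • e.symm (x n)) atTop (𝓝 y) := by
    intro y
    have h1 := (e.symm.continuous.tendsto _).comp (hexp (e y))
    rw [e.symm_apply_apply] at h1
    refine h1.congr fun m => ?_
    simp only [Function.comp_apply, map_sum, map_smul, hysa]
  refine ⟨Pool.Agent.R267.RN.Ren N hN, inferInstance, inferInstance, ?_, ⟨e⟩,
    fun n => e.symm (x n), ys, ⟨fun f => ?_, hbi', fun f hf => ?_, ?_⟩, ?_, ?_⟩
  · exact (completeSpace_congr (e := e.toEquiv) e.isUniformEmbedding).mpr inferInstance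
  · refine mem_closure_of_tendsto (hexp' f) (Eventually.of_forall fun m => ?_)
    exact Submodule.sum_mem _ fun n _ => Submodule.smul_mem _ _
      (Submodule.subset_span (Set.mem_range_self n))
  · have h1 := hexp' f
    simp only [hf, zero_smul, Finset.sum_const_zero] at h1
    exact tendsto_nhds_unique h1 tendsto_const_nhds
  · set a := ‖(e.symm : lp (fun _ : ℕ => 𝕜) 2 →L[𝕜] Pool.Agent.R267.RN.Ren N hN)‖ with ha
    set b := ‖(e : Pool.Agent.R267.RN.Ren N hN →L[𝕜] lp (fun _ : ℕ => 𝕜) 2)‖ with hb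
    refine ⟨max (a * 2) ((Pool.Agent.R267.CA.DD 𝕜).C3 * b), fun n => ⟨?_, ?_⟩⟩
    · refine le_trans ?_ (le_max_left _ _)
      refine ((e.symm : lp (fun _ : ℕ => 𝕜) 2 →L[𝕜] Pool.Agent.R267.RN.Ren N hN).le_opNorm (x n)).trans ?_
      refine mul_le_mul_of_nonneg_left ?_ (norm_nonneg _)
      rw [hxn]
      exact Pool.Agent.R267.CA.norm_bx_le n
    · refine le_trans ?_ (le_max_right _ _)
      refine (ContinuousLinearMap.opNorm_comp_le _ _).trans ?_
      exact mul_le_mul_of_nonneg_right (LinearMap.mkContinuous_norm_le _ hC3 _) (norm_nonneg _)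
  · intro f A B ε η hf1 hcard hdisj hfA hfB hε hη
    have hcoef : ∀ (S : Finset ℕ) (c : ℕ → 𝕜) (n : ℕ),
        ys n (f + ∑ k ∈ S, c k • e.symm (x k)) = ys n f + if n ∈ S then c n else 0 := by
      intro S c n
      rw [map_add, map_sum]
      congr 1
      simp only [map_smul, hbi', smul_eq_mul, mul_ite, mul_one, mul_zero]
      rw [Finset.sum_ite_eq]
    have hd' : ∀ n, n ∈ B → n ∉ A := fun n hB hA' => (Finset.disjoint_left.mp hdisj hA') hB
    have hd'' : ∀ n, n ∈ A → n ∉ B := fun n hA' => Finset.disjoint_left.mp hdisj hA'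
    have h1 := hA (e (f + ∑ k ∈ A, ε k • e.symm (x k))) (e (f + ∑ k ∈ B, η k • e.symm (x k)))
      (Pool.Agent.R267.SW.greedyRearr_of_swap _ _ A B hcard hdisj (fun n => ?_) (fun n hn => ?_)
        (fun n hn => ?_) (fun n hn => ?_) (fun n hn => ?_) (fun n hn hn' => ?_))
    · rw [he, he] at h1
      exact h1
    · change ‖ys n _‖ ≤ 1
      rw [hcoef]
      by_cases h : n ∈ A
      · rw [if_pos h, hfA n h, zero_add, hε n h]
      · rw [if_neg h, add_zero]
        exact hf1 n
    · change ‖ys n _‖ = 1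
      rw [hcoef, if_pos hn, hfA n hn, zero_add, hε n hn]
    · change ‖ys n _‖ = 1
      rw [hcoef, if_pos hn, hfB n hn, zero_add, hη n hn]
    · change ys n _ = 0
      rw [hcoef, if_neg (hd' n hn), hfB n hn, zero_add]
    · change ys n _ = 0
      rw [hcoef, if_neg (hd'' n hn), hfA n hn, zero_add]
    · change ys n _ = ys n _
      rw [hcoef, hcoef, if_neg hn, if_neg hn']
  · intro hU
    apply hy0
    have h1 := hU (e.symm y0)
    have h2 := h1.summable.map e e.continuous
    refine h2.congr fun n => ?_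
    simp only [Function.comp_apply, map_smul, e.apply_symm_apply, hysa]

end Pool.Agent.Results.MP_e9a5f2_an.HilbertRenorming
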